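import Mathlib
import Pool.Agent.V117.MonIdeal
import Pool.Agent.V117.Kosz3
import Pool.Agent.V117.RP2
import Pool.Agent.V117.Thr

/-! For every `h ≥ 1` there is a monomial ideal whose powers have field-dependent Betti numbers
exactly from the `h`-th power on. -/

namespace Pool.Agent.Results.MP_8a71fe_al.Threshold

open MvPolynomial Pool.Agent.V117 Pool.Agent.V117.MatHom Pool.Agent.V117.Kosz Pool.Agent.V117.Thr
open Pool.Agent.V117.RP2

/-- The squarefree exponent vector of `F`. -/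
noncomputable def sqf {N : ℕ} (F : Finset (Fin N)) : Fin N →₀ ℕ := ∑ j ∈ F, Finsupp.single j 1

/-- The multidegree `a` part of the `i`-th module of the Koszul complex of the variables with
coefficients in the ideal `J`: the function `c` stands for the sum of `c(F) x^{a - F} e_F`. -/
def koszulC {N : ℕ} (K : Type) [Field K] (J : Ideal (MvPolynomial (Fin N) K)) (i : ℕ)
    (a : Fin N →₀ ℕ) : Submodule K (Finset (Fin N) → K) where
  carrier := {c | ∀ F, c F ≠ 0 → F.card = i ∧ sqf F ≤ a ∧ monomial (a - sqf F) (1 : K) ∈ J}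
  add_mem' := by
    intro c d hc hd F hF
    by_cases h : c F = 0
    · apply hd F
      intro h2
      apply hF
      rw [Pi.add_apply, h, h2, add_zero]
    · exact hc F h
  zero_mem' := fun F hF => absurd rfl hF
  smul_mem' := by
    intro r c hc F hF
    apply hc F
    intro h
    apply hF
    rw [Pi.smul_apply, h, smul_zero]

/-- The Koszul differential `e_F ↦ ∑_{j ∈ F} (-1)^{#{l ∈ F : l < j}} x_j e_{F ∖ j}` in a fixed
multidegree. -/
def koszulD {N : ℕ} (K : Type) [Field K] : (Finset (Fin N) → K) →ₗ[K] (Finset (Fin N) → K) where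
  toFun c := fun G => ∑ j ∈ Gᶜ, (-1) ^ (G.filter (· < j)).card * c (insert j G)
  map_add' := bd_add
  map_smul' := bd_smul

/-- The multigraded Betti number `β_{i,a}(J) = dim Tor_i(J, K)_a`, the dimension of the homology of
the Koszul complex. -/
noncomputable def mbetti {N : ℕ} (K : Type) [Field K] (J : Ideal (MvPolynomial (Fin N) K)) (i : ℕ)
    (a : Fin N →₀ ℕ) : ℕ :=
  Module.finrank K ((koszulC K J i a ⊓ LinearMap.ker (koszulD K) : Submodule K _) ⧸
    ((koszulC K J (i + 1) a).map (koszulD K)).submoduleOf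
      (koszulC K J i a ⊓ LinearMap.ker (koszulD K)))

/-- The total Betti number `β_i(J)`. -/
noncomputable def tbetti {N : ℕ} (K : Type) [Field K] (J : Ideal (MvPolynomial (Fin N) K))
    (i : ℕ) : ℕ := ∑ᶠ a : Fin N →₀ ℕ, mbetti K J i a

/-- The ideal generated over `K` by the monomials with exponents in `G`. -/
noncomputable def monIdeal {N : ℕ} (K : Type) [Field K] (G : Finset (Fin N →₀ ℕ)) :
    Ideal (MvPolynomial (Fin N) K) :=
  Ideal.span ((fun m => monomial m (1 : K)) '' (G : Set (Fin N →₀ ℕ)))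

/-- The Betti numbers of the `l`-th power of the monomial ideal of `G` depend on the field. -/
def DependsOnField {N : ℕ} (G : Finset (Fin N →₀ ℕ)) (l : ℕ) : Prop :=
  ∃ (K : Type) (_ : Field K) (K' : Type) (_ : Field K') (i : ℕ),
    tbetti K ((monIdeal K G) ^ l) i ≠ tbetti K' ((monIdeal K' G) ^ l) i

/-! ### Koszul families -/

section

variable {N : ℕ}

lemma sqf_apply (F : Finset (Fin N)) (l : Fin N) : sqf F l = if l ∈ F then 1 else 0 := by
  unfold sqf
  rw [Finsupp.coe_finsetSum, Finset.sum_apply]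
  simp only [Finsupp.single_apply]
  rw [Finset.sum_ite_eq' F l (fun _ => 1)]

/-- The Koszul family of a set of exponents in a multidegree. -/
def Kfam (P : Set (Fin N →₀ ℕ)) (a : Fin N →₀ ℕ) : Set (Finset (Fin N)) :=
  {F | sqf F ≤ a ∧ a - sqf F ∈ P}

lemma Kfam_down {P : Set (Fin N →₀ ℕ)} (hP : IsUpperSet P) (a : Fin N →₀ ℕ) :
    DownF (Kfam P a) := by
  rintro F ⟨h1, h2⟩ F' hF'
  have h3 : sqf F' ≤ sqf F := by
    intro l
    rw [sqf_apply, sqf_apply]
    split_ifs with h4 h5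
    · exact le_rfl
    · exact absurd (hF' h4) h5
    · exact Nat.zero_le _
    · exact Nat.zero_le _
  exact ⟨h3.trans h1, hP (tsub_le_tsub_left h3 a) h2⟩

lemma mbetti_eq (K : Type) [Field K] {P : Set (Fin N →₀ ℕ)} (hP : IsUpperSet P)
    {J : Ideal (MvPolynomial (Fin N) K)} (hJ : J = upIdeal K P) (i : ℕ) (a : Fin N →₀ ℕ) :
    mbetti K J i a = hdim K (Kfam P a) i := by
  have h1 : ∀ i, koszulC K J i a = chS K (Kfam P a) i := by
    intro i
    ext c
    constructor
    · intro hc F hF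
      obtain ⟨h1, h2, h3⟩ := hc F hF
      rw [hJ, monomial_mem_upIdeal hP one_ne_zero] at h3
      exact ⟨⟨h2, h3⟩, h1⟩
    · intro hc F hF
      obtain ⟨⟨h1, h2⟩, h3⟩ := hc F hF
      refine ⟨h3, h1, ?_⟩
      rw [hJ, monomial_mem_upIdeal hP one_ne_zero]
      exact h2
  have h2 : koszulD K = bdL (ι := Fin N) K := rfl
  unfold mbetti hdim
  rw [h1, h1, h2]

/-- sums of `l` elements of `G` -/
def Sm (G : Set (Fin N →₀ ℕ)) : ℕ → Set (Fin N →₀ ℕ)
  | 0 => {0}
  | l + 1 => {s | ∃ s' ∈ Sm G l, ∃ q ∈ G, s = s' + q}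

/-- exponents of the monomials in the `l`-th power -/
def PP (G : Set (Fin N →₀ ℕ)) (l : ℕ) : Set (Fin N →₀ ℕ) := {m | ∃ s ∈ Sm G l, s ≤ m}

lemma PP_upper (G : Set (Fin N →₀ ℕ)) (l : ℕ) : IsUpperSet (PP G l) := by
  rintro a b hab ⟨s, hs, hsa⟩
  exact ⟨s, hs, hsa.trans hab⟩

lemma span_eq (K : Type) [Field K] (G : Set (Fin N →₀ ℕ)) :
    Ideal.span ((fun m => monomial m (1 : K)) '' G) = upIdeal K {m | ∃ s ∈ G, s ≤ m} := by
  unfold upIdeal
  apply le_antisymm
  · apply Ideal.span_mono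
    apply Set.image_mono
    intro s hs
    exact ⟨s, hs, le_rfl⟩
  · rw [Ideal.span_le]
    rintro _ ⟨m, ⟨s, hs, hsm⟩, rfl⟩
    have : monomial m (1 : K) = monomial (m - s) 1 * monomial s 1 := by
      rw [monomial_mul, mul_one, tsub_add_cancel_of_le hsm]
    show monomial m (1 : K) ∈ _
    rw [this]
    exact Ideal.mul_mem_left _ _ (Ideal.subset_span ⟨s, hs, rfl⟩)

lemma pow_eq (K : Type) [Field K] (G : Set (Fin N →₀ ℕ)) (l : ℕ) :
    (Ideal.span ((fun m => monomial m (1 : K)) '' G)) ^ l = upIdeal K (PP G l) := by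
  induction l with
  | zero =>
    rw [pow_zero, Ideal.one_eq_top, eq_comm, Ideal.eq_top_iff_one]
    exact Ideal.subset_span ⟨0, ⟨0, rfl, le_rfl⟩, rfl⟩
  | succ l ih =>
    rw [pow_succ, ih, span_eq]
    apply upIdeal_mul
    · rintro p ⟨s, hs, hsp⟩ q ⟨s', hs', hsq⟩
      exact ⟨s + s', ⟨s, hs, s', hs', rfl⟩, add_le_add hsp hsq⟩
    · rintro r ⟨_, ⟨s, hs, s', hs', rfl⟩, hr⟩
      exact ⟨s, ⟨s, hs, le_rfl⟩, s', ⟨s', hs', le_rfl⟩, hr⟩

/-- large multidegrees do not contribute -/
lemma hdim_large (G : Set (Fin N →₀ ℕ)) (l b : ℕ) (hb : ∀ s ∈ Sm G l, ∀ x, s x ≤ b)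
    (K : Type) [Field K] (a : Fin N →₀ ℕ) (x : Fin N) (hx : b < a x) (i : ℕ) :
    hdim K (Kfam (PP G l) a) i = 0 := by
  refine hdim_of_cone K (Kfam_down (PP_upper G l) a) x ?_ i
  rintro F ⟨h1, s, hs, hle⟩
  constructor
  · intro y
    have h2 := h1 y
    rw [sqf_apply] at h2 ⊢
    by_cases hy : y = x
    · subst hy
      split_ifs <;> omega
    · have : (y ∈ insert x F) = (y ∈ F) := by
        rw [Finset.mem_insert]; simp [hy]
      simp only [this]
      exact h2
  · refine ⟨s, hs, ?_⟩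
    intro y
    have h2 := hle y
    have h3 := hb s hs y
    simp only [Finsupp.tsub_apply, sqf_apply] at h2 ⊢
    by_cases hy : y = x
    · subst hy
      rw [if_pos (Finset.mem_insert_self _ _)]
      omega
    · have : (y ∈ insert x F) = (y ∈ F) := by
        rw [Finset.mem_insert]; simp [hy]
      simp only [this]
      exact h2

end

/-! ### The ideal -/

/-- the exponents of the generators of the Stanley-Reisner ideal -/
noncomputable def mj (j : Fin 10) : Fin 8 →₀ ℕ := sqf ({0, 1, 2, 3, 4, 5} \ fac j)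

lemma mj6 (j : Fin 10) : mj j 6 = 0 := by
  unfold mj
  rw [sqf_apply, if_neg]
  simp [Fin.ext_iff]

lemma mj7 (j : Fin 10) : mj j 7 = 0 := by
  unfold mj
  rw [sqf_apply, if_neg]
  simp [Fin.ext_iff]

/-- the exponent `a^u b^w` -/
noncomputable def ab (u w : ℕ) : Fin 8 →₀ ℕ := Finsupp.single 6 u + Finsupp.single 7 w

lemma ab6 (u w : ℕ) : ab u w 6 = u := by
  unfold ab
  rw [Finsupp.add_apply, Finsupp.single_apply, Finsupp.single_apply]
  simp

lemma ab7 (u w : ℕ) : ab u w 7 = w := by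
  unfold ab
  rw [Finsupp.add_apply, Finsupp.single_apply, Finsupp.single_apply]
  simp

lemma ab_other (u w : ℕ) {x : Fin 8} (h6 : x ≠ 6) (h7 : x ≠ 7) : ab u w x = 0 := by
  unfold ab
  rw [Finsupp.add_apply, Finsupp.single_apply, Finsupp.single_apply, if_neg (Ne.symm h6),
    if_neg (Ne.symm h7), add_zero]

variable {h : ℕ} (p : Par h)

/-- the generators -/
def Gn : Set (Fin 8 →₀ ℕ) :=
  {q | (∃ u, p.U u ∧ q = ab u (p.As + 2 - u)) ∨ ∃ j, q = mj j + ab (p.v j) (p.As + 2 - p.v j)}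

lemma Gn_finite : (Gn p).Finite := by
  have h1 : Gn p ⊆ (fun u => ab u (p.As + 2 - u)) '' (Set.Iic (p.As + 2)) ∪
      Set.range (fun j => mj j + ab (p.v j) (p.As + 2 - p.v j)) := by
    rintro q (⟨u, hu, rfl⟩ | ⟨j, rfl⟩)
    · exact Or.inl ⟨u, U_le p hu, rfl⟩
    · exact Or.inr ⟨j, rfl⟩
  exact Set.Finite.subset (((Set.finite_Iic _).image _).union (Set.finite_range _)) h1

lemma Sm_ty {l : ℕ} {s : Fin 8 →₀ ℕ} (hs : s ∈ Sm (Gn p) l) :
    s 6 + s 7 = l * (p.As + 2) ∧ Ty p l (s 6) {j | mj j ≤ s} := by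
  induction l generalizing s with
  | zero =>
    have : s = 0 := hs
    subst this
    refine ⟨by simp, Ty.ct ?_⟩
    show (0 : Fin 8 →₀ ℕ) 6 = 0
    rfl
  | succ l ih =>
    obtain ⟨s', hs', q, hq, rfl⟩ := hs
    obtain ⟨h1, h2⟩ := ih hs'
    have hsub : {j | mj j ≤ s'} ⊆ {j | mj j ≤ s' + q} := by
      intro j (hj : mj j ≤ s')
      exact hj.trans le_self_add
    rcases hq with ⟨u, hu, rfl⟩ | ⟨j, rfl⟩
    · have h3 := U_le p hu
      rw [Finsupp.add_apply, Finsupp.add_apply, ab6, ab7, add_mul]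
      refine ⟨by omega, h2.unit p hsub hu⟩
    · have h3 := v_le p j
      have h6 : (s' + (mj j + ab (p.v j) (p.As + 2 - p.v j))) 6 = s' 6 + p.v j := by
        rw [Finsupp.add_apply, Finsupp.add_apply, mj6, ab6, zero_add]
      have h7 : (s' + (mj j + ab (p.v j) (p.As + 2 - p.v j))) 7 = s' 7 + (p.As + 2 - p.v j) := by
        rw [Finsupp.add_apply, Finsupp.add_apply, mj7, ab7, zero_add]
      rw [h6, h7, add_mul]
      refine ⟨by omega, h2.spec p ?_⟩
      show mj j ≤ _
      exact le_self_add.trans le_add_self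

lemma Un_le {l a : ℕ} (ha : a ∈ p.Un l) : a ≤ l * (p.As + 2) := by
  induction l generalizing a with
  | zero =>
    have : a = 0 := ha
    omega
  | succ l ih =>
    obtain ⟨a', ha', u, hu, rfl⟩ := ha
    have h1 := ih ha'
    have h2 := U_le p hu
    rw [add_mul]
    omega

lemma Un_Sm {l a : ℕ} (ha : a ∈ p.Un l) : ab a (l * (p.As + 2) - a) ∈ Sm (Gn p) l := by
  induction l generalizing a with
  | zero =>
    have : a = 0 := ha
    subst this
    show _ = (0 : Fin 8 →₀ ℕ)
    unfold ab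
    simp
  | succ l ih =>
    obtain ⟨a', ha', u, hu, rfl⟩ := ha
    have h1 := Un_le p ha'
    have h2 := U_le p hu
    refine ⟨_, ih ha', ab u (p.As + 2 - u), Or.inl ⟨u, hu, rfl⟩, ?_⟩
    unfold ab
    have h3 : (l + 1) * (p.As + 2) - (a' + u) = (l * (p.As + 2) - a') + (p.As + 2 - u) := by
      rw [add_mul]; omega
    rw [h3, Finsupp.single_add, Finsupp.single_add]
    abel

lemma spec_Sm {n w : ℕ} (hw : w ∈ p.Cn n) (j : Fin 10) :
    mj j + ab (p.v j + w) ((n + 1) * (p.As + 2) - (p.v j + w)) ∈ Sm (Gn p) (n + 1) := by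
  have h1 := Un_le p (Cn_Un p hw)
  have h2 := v_le p j
  refine ⟨_, Un_Sm p (Cn_Un p hw), _, Or.inr ⟨j, rfl⟩, ?_⟩
  have h3 : (n + 1) * (p.As + 2) - (p.v j + w) =
      (n * (p.As + 2) - w) + (p.As + 2 - p.v j) := by
    rw [add_mul]; omega
  rw [h3]
  unfold ab
  rw [Finsupp.single_add, Finsupp.single_add]
  abel

/-- membership in the power, by position -/
def NN (l A B : ℕ) (α : Fin 8 →₀ ℕ) : Prop :=
  ∃ a ≤ A, l * (p.As + 2) ≤ a + B ∧ (a ∈ p.Un l ∨
    ∃ n j w, l = n + 1 ∧ w ∈ p.Cn n ∧ a = p.v j + w ∧ mj j ≤ α)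

lemma mem_PP (l : ℕ) (m : Fin 8 →₀ ℕ) : m ∈ PP (Gn p) l ↔ NN p l (m 6) (m 7) m := by
  constructor
  · rintro ⟨s, hs, hle⟩
    obtain ⟨h1, h2⟩ := Sm_ty p hs
    have h6 := hle 6
    have h7 := hle 7
    refine ⟨s 6, h6, by omega, ?_⟩
    generalize hS : {j | mj j ≤ s} = S at h2
    generalize hs6 : s 6 = a at h2
    cases h2 with
    | ct h3 => exact Or.inl (Cn_Un p h3)
    | @ot n w _ _ j δ hδ hw ha =>
      left
      obtain ⟨u, hu, hu2⟩ := uv p j δ hδ
      exact ⟨w, Cn_Un p hw, u, hu, by omega⟩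
    | @st n w _ _ j hw ha hj =>
      right
      refine ⟨n, j, w, rfl, hw, ha, ?_⟩
      rw [← hS] at hj
      exact (show mj j ≤ s from hj).trans hle
    | bt h3 _ _ => exact Or.inl h3
  · rintro ⟨a, ha, hB, h1 | ⟨n, j, w, rfl, hw, rfl, hj⟩⟩
    · refine ⟨_, Un_Sm p h1, ?_⟩
      intro x
      by_cases h6 : x = 6
      · subst h6; rw [ab6]; exact ha
      · by_cases h7 : x = 7
        · subst h7; rw [ab7]; omega
        · rw [ab_other _ _ h6 h7]; exact Nat.zero_le _
    · refine ⟨_, spec_Sm p hw j, ?_⟩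
      intro x
      by_cases h6 : x = 6
      · subst h6; rw [Finsupp.add_apply, mj6, ab6, zero_add]; exact ha
      · by_cases h7 : x = 7
        · subst h7; rw [Finsupp.add_apply, mj7, ab7, zero_add]; omega
        · rw [Finsupp.add_apply, ab_other _ _ h6 h7, add_zero]; exact hj x

lemma mem_Kfam (l : ℕ) (m : Fin 8 →₀ ℕ) (F : Finset (Fin 8)) :
    F ∈ Kfam (PP (Gn p) l) m ↔ sqf F ≤ m ∧
      NN p l (m 6 - if 6 ∈ F then 1 else 0) (m 7 - if 7 ∈ F then 1 else 0) (m - sqf F) := by
  show sqf F ≤ m ∧ m - sqf F ∈ PP (Gn p) l ↔ _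
  rw [mem_PP, Finsupp.tsub_apply, Finsupp.tsub_apply, sqf_apply, sqf_apply]

/-- unit corner -/
def EE (l A B : ℕ) : Prop := ∃ a ≤ A, l * (p.As + 2) ≤ a + B ∧ a ∈ p.Un l

lemma EE.nn {l A B A' B' : ℕ} (h1 : EE p l A B) (hA : A ≤ A') (hB : B ≤ B') (α : Fin 8 →₀ ℕ) :
    NN p l A' B' α := by
  obtain ⟨a, h2, h3, h4⟩ := h1
  exact ⟨a, h2.trans hA, by omega, Or.inl h4⟩

lemma typ {n : ℕ} (hn : n + 2 ≤ h) (A B : ℕ) : EE p (n + 1) A B ∨
    (∃ j, A + B = (n + 1) * (p.As + 2) ∧ A + 1 ∈ p.Un (n + 1) ∧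
      (∃ a', a' + 1 = A ∧ a' ∈ p.Un (n + 1)) ∧ ∀ α, NN p (n + 1) A B α ↔ mj j ≤ α) ∨
    ∀ α, ¬ NN p (n + 1) A B α := by
  by_cases hE : EE p (n + 1) A B
  · exact Or.inl hE
  right
  by_cases hS : ∃ a ≤ A, (n + 1) * (p.As + 2) ≤ a + B ∧ ∃ j w, w ∈ p.Cn n ∧ a = p.v j + w
  · left
    obtain ⟨a, haA, haB, j, w, hw, rfl⟩ := hS
    obtain ⟨h1, a', h2, h3⟩ := nbr p j hw
    have hA : p.v j + w = A := by
      by_contra hne
      exact hE ⟨p.v j + w + 1, by omega, by omega, h1⟩
    have hB : A + B = (n + 1) * (p.As + 2) := by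
      by_contra hne
      exact hE ⟨a', by omega, by omega, h3⟩
    refine ⟨j, hB, by rw [← hA]; exact h1, ⟨a', by omega, h3⟩, fun α => ?_⟩
    constructor
    · rintro ⟨a2, h4, h5, h6 | ⟨n', k, w', h6, hw', rfl, hk⟩⟩
      · exact absurd ⟨a2, h4, h5, h6⟩ hE
      · have h7 : n' = n := by omega
        subst h7
        have h8 : p.v k + w' = A := by omega
        have h9 : j = k := spec_unique p hn hw hw' (by omega)
        rw [h9]; exact hk
    · intro hj
      exact ⟨A, le_rfl, by omega, Or.inr ⟨n, j, w, rfl, hw, hA.symm, hj⟩⟩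
  · right
    rintro α ⟨a, h1, h2, h3 | ⟨n', j, w, h4, hw, h5, _⟩⟩
    · exact hE ⟨a, h1, h2, h3⟩
    · have h7 : n' = n := by omega
      subst h7
      exact hS ⟨a, h1, h2, j, w, hw, h5⟩

/-- a family that is a simplex on the `x`-variables -/
lemma FI_simplex (m μ : Fin 8 →₀ ℕ) (R : Finset (Fin 8)) (hR : R ⊆ {6, 7}) (𝓢 : Set (Finset (Fin 8)))
    (h𝓢 : ∀ G, G ∈ 𝓢 ↔ 6 ∉ G ∧ 7 ∉ G ∧ sqf (G ∪ R) ≤ m ∧ μ ≤ m - sqf (G ∪ R))
    (hd : DownF 𝓢) : FI 𝓢 := by
  have hRx : ∀ x, x ≠ 6 → x ≠ 7 → x ∉ R := by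
    intro x h6 h7 hx
    have := hR hx
    rw [Finset.mem_insert, Finset.mem_singleton] at this
    rcases this with rfl | rfl
    · exact h6 rfl
    · exact h7 rfl
  by_cases hex : ∃ x, x ≠ 6 ∧ x ≠ 7 ∧ μ x < m x
  · obtain ⟨x, hx6, hx7, hx⟩ := hex
    refine FI_cone hd x ?_
    intro G hG
    rw [h𝓢] at hG ⊢
    obtain ⟨h6, h7, h1, h2⟩ := hG
    refine ⟨?_, ?_, ?_, ?_⟩
    · rw [Finset.mem_insert, not_or]; exact ⟨Ne.symm hx6, h6⟩
    · rw [Finset.mem_insert, not_or]; exact ⟨Ne.symm hx7, h7⟩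
    · intro y
      have h3 := h1 y
      rw [sqf_apply] at h3 ⊢
      by_cases hy : y = x
      · subst hy
        split_ifs <;> omega
      · have : (y ∈ insert x G ∪ R) = (y ∈ G ∪ R) := by
          simp only [Finset.mem_union, Finset.mem_insert, hy, false_or]
        simp only [this]
        exact h3
    · intro y
      have h3 := h2 y
      rw [Finsupp.tsub_apply, sqf_apply] at h3 ⊢
      by_cases hy : y = x
      · subst hy
        split_ifs <;> omega
      · have : (y ∈ insert x G ∪ R) = (y ∈ G ∪ R) := by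
          simp only [Finset.mem_union, Finset.mem_insert, hy, false_or]
        simp only [this]
        exact h3
  · push Not at hex
    refine FI_small ?_
    intro G hG
    rw [h𝓢] at hG
    obtain ⟨h6, h7, h1, h2⟩ := hG
    by_contra hne
    obtain ⟨x, hx⟩ := Finset.nonempty_iff_ne_empty.mpr hne
    have hx6 : x ≠ 6 := by rintro rfl; exact h6 hx
    have hx7 : x ≠ 7 := by rintro rfl; exact h7 hx
    have h3 := hex x hx6 hx7
    have h4 := h1 x
    have h5 := h2 x
    rw [sqf_apply, if_pos (Finset.mem_union_left _ hx)] at h4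
    rw [Finsupp.tsub_apply, sqf_apply, if_pos (Finset.mem_union_left _ hx)] at h5
    omega

/-- a family that is a simplex or empty, from a corner -/
lemma FI_corner {n : ℕ} (hn : n + 2 ≤ h) (A B : ℕ) (m : Fin 8 →₀ ℕ) (R : Finset (Fin 8))
    (hR : R ⊆ {6, 7}) (𝓢 : Set (Finset (Fin 8)))
    (h𝓢 : ∀ G, G ∈ 𝓢 ↔ 6 ∉ G ∧ 7 ∉ G ∧ sqf (G ∪ R) ≤ m ∧ NN p (n + 1) A B (m - sqf (G ∪ R)))
    (hd : DownF 𝓢) : FI 𝓢 := by
  rcases typ p hn A B with h1 | ⟨j, -, -, -, h1⟩ | h1
  · refine FI_simplex m 0 R hR 𝓢 ?_ hd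
    intro G
    rw [h𝓢]
    constructor
    · rintro ⟨h2, h3, h4, _⟩
      exact ⟨h2, h3, h4, fun _ => Nat.zero_le _⟩
    · rintro ⟨h2, h3, h4, _⟩
      exact ⟨h2, h3, h4, h1.nn p le_rfl le_rfl _⟩
  · refine FI_simplex m (mj j) R hR 𝓢 ?_ hd
    intro G
    rw [h𝓢, h1]
  · refine FI_small ?_
    intro G hG
    rw [h𝓢] at hG
    exact absurd hG.2.2.2 (h1 _)

lemma sqf_insert_le {F : Finset (Fin 8)} {m : Fin 8 →₀ ℕ} (hF : sqf F ≤ m) {x : Fin 8}
    (hx : 1 ≤ m x) : sqf (insert x F) ≤ m := by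
  intro y
  have h1 := hF y
  rw [sqf_apply] at h1 ⊢
  by_cases hy : y = x
  · subst hy
    split_ifs <;> omega
  · have : (y ∈ insert x F) = (y ∈ F) := by
      rw [Finset.mem_insert]; simp [hy]
    simp only [this]
    exact h1

lemma one_le_of_sqf {F : Finset (Fin 8)} {m : Fin 8 →₀ ℕ} (hF : sqf F ≤ m) {x : Fin 8}
    (hx : x ∈ F) : 1 ≤ m x := by
  have h1 := hF x
  rwa [sqf_apply, if_pos hx] at h1

/-- Below the threshold all Koszul families have field-independent ranks. -/
theorem FI_below {n : ℕ} (hn : n + 2 ≤ h) (m : Fin 8 →₀ ℕ) :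
    FI (Kfam (PP (Gn p) (n + 1)) m) := by
  set 𝓕 := Kfam (PP (Gn p) (n + 1)) m with h𝓕
  have hd : DownF 𝓕 := Kfam_down (PP_upper _ _) m
  have hmem : ∀ F, F ∈ 𝓕 ↔ sqf F ≤ m ∧ NN p (n + 1) (m 6 - if 6 ∈ F then 1 else 0)
      (m 7 - if 7 ∈ F then 1 else 0) (m - sqf F) := fun F => mem_Kfam p (n + 1) m F
  have h67 : (6 : Fin 8) ≠ 7 := by decide
  have h76 : (7 : Fin 8) ≠ 6 := by decide
  -- the four corners
  by_cases H11 : 1 ≤ m 6 ∧ 1 ≤ m 7 ∧ EE p (n + 1) (m 6 - 1) (m 7 - 1)
  · obtain ⟨h1, h2, h3⟩ := H11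
    refine FI_cone hd 6 ?_
    intro F hF
    rw [hmem] at hF ⊢
    refine ⟨sqf_insert_le hF.1 h1, h3.nn p ?_ ?_ _⟩
    · rw [if_pos (Finset.mem_insert_self _ _)]
    · split_ifs <;> omega
  by_cases H10 : 1 ≤ m 6 ∧ EE p (n + 1) (m 6 - 1) (m 7)
  · -- the deletion of `7` is a cone over `6`
    have hcone : ∀ F ∈ 𝓕, 7 ∉ F → insert 6 F ∈ 𝓕 := by
      intro F hF h7F
      rw [hmem] at hF ⊢
      refine ⟨sqf_insert_le hF.1 H10.1, H10.2.nn p ?_ ?_ _⟩
      · rw [if_pos (Finset.mem_insert_self _ _)]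
      · rw [if_neg, Nat.sub_zero]
        rw [Finset.mem_insert, not_or]; exact ⟨h76, h7F⟩
    refine FI_del_link hd 7 6 h67 hcone ?_
    by_cases H01 : 1 ≤ m 7 ∧ EE p (n + 1) (m 6) (m 7 - 1)
    · by_cases hex : ∃ x, x ≠ 6 ∧ x ≠ 7 ∧ 1 ≤ m x
      · obtain ⟨x, hx6, hx7, hx⟩ := hex
        refine FI_del_link (hd.lk 7) 6 x hx6 ?_ ?_
        · rintro F ⟨h7F, hF⟩ h6F
          rw [hmem] at hF
          refine ⟨?_, ?_⟩
          · rw [Finset.mem_insert, not_or]; exact ⟨Ne.symm hx7, h7F⟩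
          · rw [hmem, Finset.insert_comm]
            refine ⟨sqf_insert_le hF.1 hx, H01.2.nn p ?_ ?_ _⟩
            · rw [if_neg, Nat.sub_zero]
              rw [Finset.mem_insert, not_or, Finset.mem_insert, not_or]
              exact ⟨Ne.symm hx6, h67, h6F⟩
            · rw [if_pos]
              exact Finset.mem_insert_of_mem (Finset.mem_insert_self _ _)
        · refine FI_corner p hn (m 6 - 1) (m 7 - 1) m {6, 7} (Finset.Subset.refl _) _ ?_
            ((hd.lk 7).lk 6)
          intro G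
          have hun : ∀ G : Finset (Fin 8), insert 7 (insert 6 G) = G ∪ {6, 7} := by
            intro G
            ext y
            simp only [Finset.mem_insert, Finset.mem_union, Finset.mem_singleton]
            tauto
          constructor
          · rintro ⟨h6, h7, hG⟩
            rw [hmem, hun] at hG
            rw [Finset.mem_insert, not_or] at h7
            refine ⟨h6, h7.2, hG.1, ?_⟩
            have := hG.2
            rwa [if_pos (by simp), if_pos (by simp)] at this
          · rintro ⟨h6, h7, h1, h2⟩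
            refine ⟨h6, ?_, ?_⟩
            · rw [Finset.mem_insert, not_or]; exact ⟨h76, h7⟩
            · rw [hmem, hun]
              refine ⟨h1, ?_⟩
              rw [if_pos (by simp), if_pos (by simp)]
              exact h2
      · push Not at hex
        have hsub : ∀ F ∈ lkF 7 𝓕, F ⊆ {6} := by
          rintro F ⟨h7F, hF⟩ y hy
          rw [hmem] at hF
          have h1 := one_le_of_sqf hF.1 (Finset.mem_insert_of_mem hy)
          rw [Finset.mem_singleton]
          by_contra h6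
          have h7 : y ≠ 7 := by rintro rfl; exact h7F hy
          have := hex y h6 h7
          omega
        by_cases h6 : {6} ∈ lkF 7 𝓕
        · refine FI_cone (hd.lk 7) 6 ?_
          intro F hF
          have : insert 6 F = {6} := by
            apply Finset.Subset.antisymm
            · exact Finset.insert_subset (Finset.mem_singleton_self _) (hsub F hF)
            · exact Finset.singleton_subset_iff.mpr (Finset.mem_insert_self _ _)
          rw [this]; exact h6
        · refine FI_small ?_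
          intro F hF
          rcases Finset.subset_singleton_iff.mp (hsub F hF) with h1 | h1
          · exact h1
          · rw [h1] at hF; exact absurd hF h6
    · -- `7` in the face forces `6` out
      refine FI_corner p hn (m 6) (m 7 - 1) m {7} (by simp) _ ?_ (hd.lk 7)
      have hun : ∀ G : Finset (Fin 8), insert 7 G = G ∪ {7} := by
        intro G
        ext y
        simp only [Finset.mem_insert, Finset.mem_union, Finset.mem_singleton]
        tauto
      intro G
      constructor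
      · rintro ⟨h7, hG⟩
        rw [hmem] at hG
        have h6 : 6 ∉ G := by
          intro h6
          have h2 := hG.2
          rw [if_pos (Finset.mem_insert_of_mem h6), if_pos (Finset.mem_insert_self _ _)] at h2
          have hm6 := one_le_of_sqf hG.1 (Finset.mem_insert_of_mem h6)
          have hm7 := one_le_of_sqf hG.1 (Finset.mem_insert_self _ _)
          rcases typ p hn (m 6 - 1) (m 7 - 1) with h3 | ⟨j, h3, h4, -, -⟩ | h3
          · exact H11 ⟨hm6, hm7, h3⟩
          · rw [Nat.sub_add_cancel hm6] at h4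
            exact H01 ⟨hm7, m 6, le_rfl, by omega, h4⟩
          · exact h3 _ h2
        refine ⟨h6, h7, by rw [← hun]; exact hG.1, ?_⟩
        have h2 := hG.2
        rw [if_neg (by rw [Finset.mem_insert, not_or]; exact ⟨h67, h6⟩),
          if_pos (Finset.mem_insert_self _ _), Nat.sub_zero] at h2
        rw [← hun]
        exact h2
      · rintro ⟨h6, h7, h1, h2⟩
        refine ⟨h7, ?_⟩
        rw [hmem]
        rw [← hun] at h1 h2
        refine ⟨h1, ?_⟩
        rw [if_neg (by rw [Finset.mem_insert, not_or]; exact ⟨h67, h6⟩),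
          if_pos (Finset.mem_insert_self _ _), Nat.sub_zero]
        exact h2
  by_cases H01 : 1 ≤ m 7 ∧ EE p (n + 1) (m 6) (m 7 - 1)
  · have hcone : ∀ F ∈ 𝓕, 6 ∉ F → insert 7 F ∈ 𝓕 := by
      intro F hF h6F
      rw [hmem] at hF ⊢
      refine ⟨sqf_insert_le hF.1 H01.1, H01.2.nn p ?_ ?_ _⟩
      · rw [if_neg, Nat.sub_zero]
        rw [Finset.mem_insert, not_or]; exact ⟨h67, h6F⟩
      · rw [if_pos (Finset.mem_insert_self _ _)]
    refine FI_del_link hd 6 7 h76 hcone ?_
    refine FI_corner p hn (m 6 - 1) (m 7) m {6} (by simp) _ ?_ (hd.lk 6)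
    have hun : ∀ G : Finset (Fin 8), insert 6 G = G ∪ {6} := by
      intro G
      ext y
      simp only [Finset.mem_insert, Finset.mem_union, Finset.mem_singleton]
      tauto
    intro G
    constructor
    · rintro ⟨h6, hG⟩
      rw [hmem] at hG
      have h7 : 7 ∉ G := by
        intro h7
        have h2 := hG.2
        rw [if_pos (Finset.mem_insert_of_mem h7), if_pos (Finset.mem_insert_self _ _)] at h2
        have hm7 := one_le_of_sqf hG.1 (Finset.mem_insert_of_mem h7)
        have hm6 := one_le_of_sqf hG.1 (Finset.mem_insert_self _ _)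
        rcases typ p hn (m 6 - 1) (m 7 - 1) with h3 | ⟨j, h3, -, ⟨a', h4, h5⟩, -⟩ | h3
        · exact H11 ⟨hm6, hm7, h3⟩
        · exact H10 ⟨hm6, a', by omega, by omega, h5⟩
        · exact h3 _ h2
      refine ⟨h6, h7, by rw [← hun]; exact hG.1, ?_⟩
      have h2 := hG.2
      rw [if_pos (Finset.mem_insert_self _ _), if_neg (show ¬ (7 ∈ insert 6 G) by
        rw [Finset.mem_insert, not_or]; exact ⟨h76, h7⟩), Nat.sub_zero] at h2
      rw [← hun]
      exact h2
    · rintro ⟨h6, h7, h1, h2⟩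
      refine ⟨h6, ?_⟩
      rw [hmem]
      rw [← hun] at h1 h2
      refine ⟨h1, ?_⟩
      rw [if_pos (Finset.mem_insert_self _ _), if_neg (show ¬ (7 ∈ insert 6 G) by
        rw [Finset.mem_insert, not_or]; exact ⟨h76, h7⟩), Nat.sub_zero]
      exact h2
  -- no unit corner besides possibly the first
  have hno6 : ∀ F ∈ 𝓕, 7 ∉ F → 6 ∉ F := by
    intro F hF h7 h6
    rw [hmem] at hF
    have h2 := hF.2
    rw [if_pos h6, if_neg h7, Nat.sub_zero] at h2
    have hm6 := one_le_of_sqf hF.1 h6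
    rcases typ p hn (m 6 - 1) (m 7) with h3 | ⟨j, h3, h4, -, -⟩ | h3
    · exact H10 ⟨hm6, h3⟩
    · rw [Nat.sub_add_cancel hm6] at h4
      have h5 := Un_le p h4
      exact H01 ⟨by omega, m 6, le_rfl, by omega, h4⟩
    · exact h3 _ h2
  have hno7 : ∀ F ∈ 𝓕, 7 ∉ F := by
    intro F hF h7
    have hF2 : F.erase 6 ∈ 𝓕 := hd F hF _ (Finset.erase_subset _ _)
    have h7' : 7 ∈ F.erase 6 := Finset.mem_erase.mpr ⟨h76, h7⟩
    have h6' : 6 ∉ F.erase 6 := by simp
    rw [hmem] at hF2
    have h2 := hF2.2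
    rw [if_pos h7', if_neg h6', Nat.sub_zero] at h2
    have hm7 := one_le_of_sqf hF2.1 h7'
    rcases typ p hn (m 6) (m 7 - 1) with h3 | ⟨j, h3, -, ⟨a', h4, h5⟩, -⟩ | h3
    · exact H01 ⟨hm7, h3⟩
    · exact H10 ⟨by omega, a', by omega, by omega, h5⟩
    · exact h3 _ h2
  refine FI_corner p hn (m 6) (m 7) m ∅ (Finset.empty_subset _) _ ?_ hd
  intro G
  rw [Finset.union_empty]
  constructor
  · intro hG
    have h7 := hno7 G hG
    have h6 := hno6 G hG h7
    rw [hmem] at hG
    refine ⟨h6, h7, hG.1, ?_⟩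
    have h2 := hG.2
    rwa [if_neg h6, if_neg h7, Nat.sub_zero, Nat.sub_zero] at h2
  · rintro ⟨h6, h7, h1, h2⟩
    rw [hmem]
    refine ⟨h1, ?_⟩
    rw [if_neg h6, if_neg h7, Nat.sub_zero, Nat.sub_zero]
    exact h2

/-! ### From the threshold on -/

/-- the critical multidegree -/
noncomputable def crit (l : ℕ) : Fin 8 →₀ ℕ :=
  sqf {0, 1, 2, 3, 4, 5} + ab p.As (l * (p.As + 2) - p.As)

lemma crit6 (l : ℕ) : crit p l 6 = p.As := by
  unfold crit
  rw [Finsupp.add_apply, ab6, sqf_apply, if_neg (by decide), zero_add]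

lemma crit7 (l : ℕ) : crit p l 7 = l * (p.As + 2) - p.As := by
  unfold crit
  rw [Finsupp.add_apply, ab7, sqf_apply, if_neg (by decide), zero_add]

lemma crit_other (l : ℕ) {x : Fin 8} (h6 : x ≠ 6) (h7 : x ≠ 7) : crit p l x = 1 := by
  unfold crit
  rw [Finsupp.add_apply, ab_other _ _ h6 h7, sqf_apply, if_pos, add_zero]
  revert x; decide

lemma Un_ty {l a : ℕ} (ha : a ∈ p.Un l) : Ty p l a ∅ := by
  induction l generalizing a with
  | zero => exact Ty.ct ha
  | succ l ih =>
    obtain ⟨a', ha', u, hu, rfl⟩ := ha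
    exact (ih ha').unit p (Set.Subset.refl _) hu

theorem Kfam_crit {l : ℕ} (hl1 : 1 ≤ l) (hl : h ≤ l) : Kfam (PP (Gn p) l) (crit p l) = RP := by
  have hl2 : p.As ≤ l * (p.As + 2) := by nlinarith
  ext F
  rw [mem_Kfam, crit6, crit7]
  constructor
  · rintro ⟨h1, a, h2, h3, h4⟩
    have h6 : 6 ∉ F := by
      intro h6
      rw [if_pos h6] at h2
      have hA := p.hAs
      have : 1 ≤ p.As := by
        by_contra hcon
        have : p.As = 0 := by omega
        rw [this] at hA; simp at hA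
      split_ifs at h3 <;> omega
    have h7 : 7 ∉ F := by
      intro h7
      rw [if_pos h7] at h3
      rw [if_neg h6] at h2
      have h5 : 1 ≤ l * (p.As + 2) - p.As := by
        have : 1 * (p.As + 2) ≤ l * (p.As + 2) := Nat.mul_le_mul_right _ hl1
        omega
      omega
    rw [if_neg h6] at h2
    rw [if_neg h7] at h3
    have haA : a = p.As := by omega
    subst haA
    rcases h4 with h4 | ⟨n, j, w, -, -, -, hj⟩
    · obtain ⟨j, hj⟩ := at_As p (Un_ty p h4)
      exact absurd hj (Set.notMem_empty _)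
    · refine ⟨j, ?_⟩
      intro x hx
      have hx6 : x ≠ 6 := by rintro rfl; exact h6 hx
      have hx7 : x ≠ 7 := by rintro rfl; exact h7 hx
      have h5 := hj x
      rw [Finsupp.tsub_apply, sqf_apply, if_pos hx, crit_other p l hx6 hx7] at h5
      unfold mj at h5
      rw [sqf_apply] at h5
      by_contra hcon
      rw [if_pos] at h5
      · omega
      · rw [Finset.mem_sdiff]
        refine ⟨?_, hcon⟩
        clear h5 hcon hx hj
        revert x; decide
  · rintro ⟨j, hj⟩
    have hsub : fac j ⊆ {0, 1, 2, 3, 4, 5} := by clear hj; revert j; decide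
    have h6 : 6 ∉ F := by
      intro h6
      have := hsub (hj h6)
      revert this; decide
    have h7 : 7 ∉ F := by
      intro h7
      have := hsub (hj h7)
      revert this; decide
    have hA := p.hAs
    refine ⟨?_, p.As, ?_, ?_, Or.inr ⟨l - 1, j, (h - 1) * p.c j, by omega,
      Cn_mono p (by omega) (Cn_mul p j (h - 1)), (v_add p j).symm, ?_⟩⟩
    · intro x
      by_cases hx6 : x = 6
      · subst hx6; rw [sqf_apply, if_neg h6]; exact Nat.zero_le _
      · by_cases hx7 : x = 7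
        · subst hx7; rw [sqf_apply, if_neg h7]; exact Nat.zero_le _
        · rw [crit_other p l hx6 hx7, sqf_apply]
          split_ifs <;> omega
    · rw [if_neg h6]; omega
    · rw [if_neg h7]; omega
    · intro x
      by_cases hx6 : x = 6
      · subst hx6; rw [mj6]; exact Nat.zero_le _
      · by_cases hx7 : x = 7
        · subst hx7; rw [mj7]; exact Nat.zero_le _
        · unfold mj
          rw [Finsupp.tsub_apply, crit_other p l hx6 hx7, sqf_apply, sqf_apply]
          by_cases hxF : x ∈ F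
          · rw [if_neg]
            · exact Nat.zero_le _
            · rw [Finset.mem_sdiff, not_and_not_right]
              intro _; exact hj hxF
          · rw [if_neg hxF]
            split_ifs <;> omega

lemma Sm_bound {l : ℕ} : ∀ s ∈ Sm (Gn p) l, ∀ x, s x ≤ l * (p.As + 3) := by
  induction l with
  | zero =>
    intro s hs x
    have : s = 0 := hs
    subst this
    exact Nat.zero_le _
  | succ l ih =>
    rintro _ ⟨s, hs, q, hq, rfl⟩ x
    have h1 := ih s hs x
    have h2 : q x ≤ p.As + 3 := by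
      rcases hq with ⟨u, hu, rfl⟩ | ⟨j, rfl⟩
      · have := U_le p hu
        by_cases h6 : x = 6
        · subst h6; rw [ab6]; omega
        · by_cases h7 : x = 7
          · subst h7; rw [ab7]; omega
          · rw [ab_other _ _ h6 h7]; omega
      · have := v_le p j
        rw [Finsupp.add_apply]
        by_cases h6 : x = 6
        · subst h6; rw [ab6, mj6]; omega
        · by_cases h7 : x = 7
          · subst h7; rw [ab7, mj7]; omega
          · rw [ab_other _ _ h6 h7]
            unfold mj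
            rw [sqf_apply]
            split_ifs <;> omega
    rw [Finsupp.add_apply, add_mul]
    omega

theorem result : ∀ h ≥ 1, ∃ (N : ℕ) (G : Finset (Fin N →₀ ℕ)), ∀ l ≥ 1,
    (DependsOnField G l ↔ h ≤ l) := by
  intro h hh
  obtain ⟨p⟩ := exists_par h hh
  refine ⟨8, (Gn_finite p).toFinset, fun l hl => ?_⟩
  have hI : ∀ (K : Type) [Field K], (monIdeal K (Gn_finite p).toFinset) ^ l =
      upIdeal K (PP (Gn p) l) := by
    intro K _
    unfold monIdeal
    rw [Set.Finite.coe_toFinset, pow_eq]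
  have hmb : ∀ (K : Type) [Field K] (i : ℕ) (a : Fin 8 →₀ ℕ),
      mbetti K ((monIdeal K (Gn_finite p).toFinset) ^ l) i a =
        hdim K (Kfam (PP (Gn p) l) a) i := fun K _ i a => mbetti_eq K (PP_upper _ _) (hI K) i a
  constructor
  · rintro ⟨K, hK, K', hK', i, hne⟩
    by_contra hcon
    apply hne
    obtain ⟨n, rfl⟩ : ∃ n, l = n + 1 := ⟨l - 1, by omega⟩
    have key : ∀ (L : Type) [Field L], tbetti L ((monIdeal L (Gn_finite p).toFinset) ^ (n + 1)) i =
        tbetti ℚ ((monIdeal ℚ (Gn_finite p).toFinset) ^ (n + 1)) i := by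
      intro L _
      unfold tbetti
      refine finsum_congr fun a => ?_
      rw [hmb, hmb]
      exact (FI_below p (by omega) a).hdim (Kfam_down (PP_upper _ _) a) L i
    rw [key K, key K']
  · intro hl2
    refine ⟨ZMod 2, inferInstance, ℚ, inferInstance, 3, ?_⟩
    apply ne_of_gt
    let bnd : Fin 8 →₀ ℕ := Finsupp.equivFunOnFinite.symm fun _ => l * (p.As + 3)
    have hsum : ∀ (K : Type) [Field K], tbetti K ((monIdeal K (Gn_finite p).toFinset) ^ l) 3 =
        ∑ a ∈ Finset.Icc 0 bnd, hdim K (Kfam (PP (Gn p) l) a) 3 := by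
      intro K _
      unfold tbetti
      simp only [hmb]
      apply finsum_eq_sum_of_support_subset
      intro a ha
      rw [Function.mem_support] at ha
      rw [Finset.coe_Icc, Set.mem_Icc]
      refine ⟨fun _ => Nat.zero_le _, fun x => ?_⟩
      by_contra hcon
      apply ha
      refine hdim_large (Gn p) l (l * (p.As + 3)) (Sm_bound p) K a x ?_ 3
      exact not_le.mp hcon
    rw [hsum, hsum]
    have hcr : hdim ℚ (Kfam (PP (Gn p) l) (crit p l)) 3 <
        hdim (ZMod 2) (Kfam (PP (Gn p) l) (crit p l)) 3 := by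
      rw [Kfam_crit p hl hl2]
      exact hdim_lt
    apply Finset.sum_lt_sum
    · intro a _
      exact hdim_ge_rat (ZMod 2) (Kfam_down (PP_upper _ _) a) 3
    · refine ⟨crit p l, ?_, hcr⟩
      rw [Finset.mem_Icc]
      refine ⟨fun _ => Nat.zero_le _, fun x => ?_⟩
      by_contra hcon
      have h1 := hdim_large (Gn p) l (l * (p.As + 3)) (Sm_bound p) (ZMod 2) (crit p l) x
        (not_le.mp hcon) 3
      omega

end Pool.Agent.Results.MP_8a71fe_al.Threshold
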